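import Mathlib
import Pool.Agent.MP_ca4252_co.Defs
import Pool.Agent.MP_ca4252_co.Proofs

/-!
Full answer to Q1 of MP_ca4252_co: for every `d ≥ 1` the longest monochromatic arithmetic
progression of difference `d` in the Fibonacci word has length `A(d)` with
`(A(d) - 1) / d < √5 / τ`.
-/

namespace Pool.Agent.Results.MP_ca4252_co.SlopeBound

open Pool.Agent.MP_ca4252_co

/-- **Answer to Q1.**  There is a unique infinite word `f` fixed by `0 ↦ 01`, `1 ↦ 0`
(the Fibonacci word), and for every `d ≥ 1` the longest monochromatic arithmetic progression of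
difference `d` in `f` has a length `A` (the maximum exists) with `(A - 1) / d < √5 / τ`. -/
theorem result :
    ∃ f : ℕ → Fin 2, (∀ g, IsFixedPoint g ↔ g = f) ∧
      ∀ d : ℕ, 1 ≤ d → ∃ A : ℕ, IsGreatest (MonoLengths f d) A ∧
        ((A : ℝ) - 1) / d < √5 / Real.goldenRatio := by
  refine ⟨fw, fun g => ⟨fixedPoint_unique, fun h => h ▸ fw_isFixedPoint⟩, ?_⟩
  intro d hd
  have hd' : (0 : ℝ) < d := by exact_mod_cast hd
  have hbound : ∀ k ∈ MonoLengths fw d, ((k : ℝ) - 1) / d < √5 / Real.goldenRatio := by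
    rintro k ⟨i, hi⟩
    rw [target_eq, div_lt_iff₀ hd']
    rcases Nat.eq_zero_or_pos k with rfl | hk
    · have := al_ub
      push_cast
      nlinarith
    · have := main_bound (m := k - 1) hd (fun j hj => hi j (by omega))
      rwa [Nat.cast_sub hk, Nat.cast_one] at this
  have hne : (MonoLengths fw d).Nonempty := ⟨1, 0, fun j hj => by
    obtain rfl : j = 0 := by omega
    simp⟩
  have hbdd : BddAbove (MonoLengths fw d) := by
    refine ⟨⌈√5 / Real.goldenRatio * d + 1⌉₊, fun k hk => ?_⟩
    have h1 := hbound k hk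
    rw [div_lt_iff₀ hd'] at h1
    have h2 : (k : ℝ) ≤ ⌈√5 / Real.goldenRatio * d + 1⌉₊ :=
      le_trans (by linarith) (Nat.le_ceil _)
    exact_mod_cast h2
  exact ⟨sSup (MonoLengths fw d), ⟨Nat.sSup_mem hne hbdd, fun k hk => le_csSup hbdd hk⟩,
    hbound _ (Nat.sSup_mem hne hbdd)⟩

end Pool.Agent.Results.MP_ca4252_co.SlopeBound
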